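import Pool.Agent.Helper32_ABCT.Stmts2

/-!
# Positivity of Vandermonde vectors, closures (MP_a17fcb_ag: VCL, VTRI)
-/

open MvPolynomial

namespace ABCT.H41

open ABCT

theorem prsAll_fac_pos (l : List ℕ) (t : ℕ → ℝ) (ht : l.Pairwise (fun a b => t a < t b))
    (I : Finset ℕ) (p : ℕ × ℕ) (hp : p ∈ prsAll l I) :
    0 < t (l.getD p.2 0) - t (l.getD p.1 0) := by
  simp only [prsAll, Finset.mem_filter, Finset.mem_product, Finset.mem_range] at hp
  obtain ⟨⟨h1, h2⟩, h3, -, -⟩ := hp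
  have h := List.pairwise_iff_getElem.mp ht p.1 p.2 h1 h2 h3
  rw [List.getD_eq_getElem _ _ h1, List.getD_eq_getElem _ _ h2]
  linarith

theorem prod_prsAll_pos (l : List ℕ) (t : ℕ → ℝ) (ht : l.Pairwise (fun a b => t a < t b))
    (I : Finset ℕ) : 0 < ∏ p ∈ prsAll l I, (t (l.getD p.2 0) - t (l.getD p.1 0)) :=
  Finset.prod_pos fun p hp => prsAll_fac_pos l t ht I p hp

theorem Q_pos (l : List ℕ) (r : ℕ) (κ : ℝ) (c t : ℕ → ℝ) (hκ : 0 < κ) (hc : ∀ i, 0 < c i)
    (ht : l.Pairwise (fun a b => t a < t b)) (I : Finset ℕ)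
    (hI : I ∈ l.toFinset.powersetCard r) : 0 < Q l r κ c t I := by
  unfold Q
  rw [if_pos hI]
  exact mul_pos (mul_pos hκ (Finset.prod_pos fun i _ => hc i)) (prod_prsAll_pos l t ht I)

theorem Q_zero {R : Type*} [CommRing R] (l : List ℕ) (r : ℕ) (κ : R) (c t : ℕ → R)
    (I : Finset ℕ) (hI : I ∉ l.toFinset.powersetCard r) : Q l r κ c t I = 0 := by
  unfold Q
  rw [if_neg hI]

theorem ZV_pos {l : List ℕ} {r : ℕ} {z : Finset ℕ → ℝ} (hz : z ∈ ZV l r) :
    (∀ I ∈ l.toFinset.powersetCard r, 0 < z I) ∧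
      ∀ I, I ∉ l.toFinset.powersetCard r → z I = 0 := by
  obtain ⟨κ, c, t, hκ, hc, ht, rfl⟩ := hz
  exact ⟨fun I hI => Q_pos l r κ c t hκ hc ht I hI, fun I hI => Q_zero l r κ c t I hI⟩

theorem Q_ofReal (l : List ℕ) (r : ℕ) (κ : ℝ) (c t : ℕ → ℝ) (I : Finset ℕ) :
    ((Q l r κ c t I : ℝ) : ℂ) = Q l r (κ : ℂ) (fun i => (c i : ℂ)) (fun i => (t i : ℂ)) I := by
  unfold Q
  split_ifs
  · push_cast
    rfl
  · simp

theorem ZV_sub_XV (l : List ℕ) (r : ℕ) : ZV l r ⊆ XV l r := by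
  rintro z ⟨κ, c, t, -, -, -, rfl⟩ f hf
  have h := hf (κ : ℂ) (fun i => (c i : ℂ)) (fun i => (t i : ℂ))
  have e : (fun I => ((Q l r κ c t I : ℝ) : ℂ)) =
      Q l r (κ : ℂ) (fun i => (c i : ℂ)) (fun i => (t i : ℂ)) := by
    funext I
    exact Q_ofReal l r κ c t I
  rw [e]
  exact h

theorem isClosed_XV (l : List ℕ) (r : ℕ) : IsClosed (XV l r) := by
  have e : XV l r = ⋂ f : {f : MvPolynomial (Finset ℕ) ℂ //
      ∀ (κ : ℂ) (c t : ℕ → ℂ), aeval (Q l r κ c t) f = 0},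
      {z : Finset ℕ → ℝ | aeval (fun I => ((z I : ℝ) : ℂ)) f.1 = 0} := by
    ext z
    simp only [XV, Set.mem_ofPred_eq, Set.mem_iInter, Subtype.forall]
  rw [e]
  refine isClosed_iInter fun f => isClosed_eq ?_ continuous_const
  have h : Continuous fun w : Finset ℕ → ℂ => aeval w f.1 := by
    have e2 : (fun w : Finset ℕ → ℂ => aeval w f.1) = fun w => eval w f.1 := by
      funext w
      rw [← MvPolynomial.coe_aeval_eq_eval]
      rfl
    rw [e2]
    exact MvPolynomial.continuous_eval f.1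
  exact h.comp (continuous_pi fun I => Complex.continuous_ofReal.comp (continuous_apply I))

theorem closedStmt : ClosedStmt := by
  intro l r
  have h : ZV l r ⊆ {z | z ∈ XV l r ∧ Nonneg z} := by
    intro z hz
    refine ⟨ZV_sub_XV l r hz, fun I => ?_⟩
    by_cases hI : I ∈ l.toFinset.powersetCard r
    · exact ((ZV_pos hz).1 I hI).le
    · exact ((ZV_pos hz).2 I hI).ge
  refine closure_minimal h ?_
  have e : {z | z ∈ XV l r ∧ Nonneg z} = XV l r ∩ ⋂ I : Finset ℕ, {z : Finset ℕ → ℝ | 0 ≤ z I} := by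
    ext z
    simp only [Nonneg, Set.mem_ofPred_eq, Set.mem_inter_iff, Set.mem_iInter]
  rw [e]
  exact (isClosed_XV l r).inter (isClosed_iInter fun I => isClosed_le continuous_const
    (continuous_apply I))

end ABCT.H41
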