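import Pool.Agent.Helper41_ABCT.VPos

/-!
# Rank and corank at most one (MP_a17fcb_ag: VTRI)
-/

open MvPolynomial

namespace ABCT.H41

open ABCT

/-- positions as times -/
theorem idx_pairwise (l : List ℕ) (hl : l.Nodup) :
    l.Pairwise (fun a b => ((l.idxOf a : ℕ) : ℝ) < ((l.idxOf b : ℕ) : ℝ)) := by
  rw [List.pairwise_iff_getElem]
  intro i j hi hj hij
  rw [hl.idxOf_getElem i hi, hl.idxOf_getElem j hj]
  exact_mod_cast hij

theorem prsAll_small (l : List ℕ) (hl : l.Nodup) (I : Finset ℕ) (hI : I.card ≤ 1) :
    prsAll l I = ∅ := by
  rw [Finset.eq_empty_iff_forall_notMem]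
  intro p hp
  simp only [prsAll, Finset.mem_filter, Finset.mem_product, Finset.mem_range] at hp
  obtain ⟨⟨h1, h2⟩, h3, h4, h5⟩ := hp
  have h := Finset.card_le_one.mp hI _ h4 _ h5
  rw [List.getD_eq_getElem _ _ h1, List.getD_eq_getElem _ _ h2] at h
  have := (hl.getElem_inj_iff).mp h
  omega

theorem ztrivStmt : ZtrivStmt := by
  intro l r hl hr hcase
  apply Set.Subset.antisymm
  · intro z hz
    exact ZV_pos hz
  · rintro z ⟨hpos, hzero⟩
    set n := l.toFinset.card with hn
    have hnl : n = l.length := by rw [hn]; exact List.toFinset_card_of_nodup hl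
    let t : ℕ → ℝ := fun x => ((l.idxOf x : ℕ) : ℝ)
    have ht : l.Pairwise (fun a b => t a < t b) := idx_pairwise l hl
    -- it is enough to match the values on the bases
    have key : ∀ (κ : ℝ) (c : ℕ → ℝ), 0 < κ → (∀ i, 0 < c i) →
        (∀ I ∈ l.toFinset.powersetCard r, z I = Q l r κ c t I) → z ∈ ZV l r := by
      intro κ c hκ hc h
      refine ⟨κ, c, t, hκ, hc, ht, ?_⟩
      funext I
      by_cases hI : I ∈ l.toFinset.powersetCard r
      · exact h I hI
      · rw [hzero I hI, Q_zero l r κ c t I hI]
    rcases hcase with h1 | h1
    · -- rank at most one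
      rcases Nat.le_one_iff_eq_zero_or_eq_one.mp h1 with rfl | rfl
      · refine key (z ∅) (fun _ => 1) (hpos ∅ (by simp)) (fun _ => one_pos) ?_
        intro I hI
        have hI' : I = ∅ := by
          rw [Finset.mem_powersetCard] at hI
          exact Finset.card_eq_zero.mp hI.2
        subst hI'
        unfold Q
        rw [if_pos hI, prsAll_small l hl ∅ (by simp)]
        simp
      · refine key 1 (fun x => if x ∈ l.toFinset then z {x} else 1) one_pos ?_ ?_
        · intro x
          by_cases hx : x ∈ l.toFinset
          · simp only [hx, if_true]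
            exact hpos {x} (by rw [Finset.mem_powersetCard]; simp [List.mem_toFinset.mp hx])
          · simp only [hx, if_false]
            exact one_pos
        · intro I hI
          obtain ⟨hIs, hIc⟩ := Finset.mem_powersetCard.mp hI
          obtain ⟨x, rfl⟩ := Finset.card_eq_one.mp hIc
          have hx : x ∈ l.toFinset := hIs (Finset.mem_singleton_self x)
          unfold Q
          rw [if_pos hI, prsAll_small l hl {x} (by simp)]
          simp [List.mem_toFinset.mp hx]
    · -- corank at most one
      let D : Finset ℕ → ℝ := fun I =>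
        ∏ p ∈ prsAll l I, (t (l.getD p.2 0) - t (l.getD p.1 0))
      have hD : ∀ I, 0 < D I := fun I => prod_prsAll_pos l t ht I
      rcases Nat.lt_or_ge r l.length with h2 | h2
      · -- corank one
        have hr1 : r + 1 = n := by omega
        let c : ℕ → ℝ := fun x =>
          if x ∈ l.toFinset then D (l.toFinset.erase x) / z (l.toFinset.erase x) else 1
        have hmem : ∀ x ∈ l.toFinset, l.toFinset.erase x ∈ l.toFinset.powersetCard r := by
          intro x hx
          rw [Finset.mem_powersetCard]
          refine ⟨Finset.erase_subset _ _, ?_⟩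
          rw [Finset.card_erase_of_mem hx]
          omega
        have hc : ∀ i, 0 < c i := by
          intro x
          by_cases hx : x ∈ l.toFinset
          · simp only [c, hx, if_true]
            exact div_pos (hD _) (hpos _ (hmem x hx))
          · simp only [c, hx, if_false]
            exact one_pos
        have hP : 0 < ∏ i ∈ l.toFinset, c i := Finset.prod_pos fun i _ => hc i
        refine key (∏ i ∈ l.toFinset, c i)⁻¹ c (inv_pos.mpr hP) hc ?_
        intro I hI
        obtain ⟨hIs, hIc⟩ := Finset.mem_powersetCard.mp hI
        have hsd : (l.toFinset \ I).card = 1 := by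
          rw [Finset.card_sdiff_of_subset hIs]
          omega
        obtain ⟨x, hx⟩ := Finset.card_eq_one.mp hsd
        have hxm : x ∈ l.toFinset ∧ x ∉ I := by
          have : x ∈ l.toFinset \ I := by rw [hx]; exact Finset.mem_singleton_self x
          exact Finset.mem_sdiff.mp this
        have hIe : I = l.toFinset.erase x := by
          apply Finset.eq_of_subset_of_card_le
          · intro y hy
            exact Finset.mem_erase.mpr ⟨fun h => hxm.2 (h ▸ hy), hIs hy⟩
          · rw [Finset.card_erase_of_mem hxm.1]
            omega
        have hprod : (∏ i ∈ l.toFinset, c i) = c x * ∏ i ∈ I, c i := by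
          rw [hIe, Finset.mul_prod_erase _ _ hxm.1]
        have hcx : c x = D I / z I := by
          simp only [c, hxm.1, if_true]
          rw [← hIe]
        have hzI : z I ≠ 0 := (hpos I hI).ne'
        have hDI : D I ≠ 0 := (hD I).ne'
        have hPI : (∏ i ∈ I, c i) ≠ 0 := (Finset.prod_pos fun i _ => hc i).ne'
        unfold Q
        rw [if_pos hI]
        change z I = (∏ i ∈ l.toFinset, c i)⁻¹ * (∏ i ∈ I, c i) * D I
        rw [hprod, hcx]
        field_simp
      · -- full rank
        have hr1 : r = n := by omega
        have hmem : l.toFinset ∈ l.toFinset.powersetCard r := by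
          rw [Finset.mem_powersetCard]
          exact ⟨subset_rfl, by omega⟩
        refine key (z l.toFinset / D l.toFinset) (fun _ => 1) (div_pos (hpos _ hmem) (hD _))
          (fun _ => one_pos) ?_
        intro I hI
        obtain ⟨hIs, hIc⟩ := Finset.mem_powersetCard.mp hI
        have hIe : I = l.toFinset := Finset.eq_of_subset_of_card_le hIs (by omega)
        subst hIe
        unfold Q
        rw [if_pos hI]
        change z l.toFinset = z l.toFinset / D l.toFinset * (∏ _i ∈ l.toFinset, (1 : ℝ)) *
          D l.toFinset
        rw [Finset.prod_const_one, mul_one, div_mul_cancel₀ _ (hD _).ne']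

end ABCT.H41
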